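import Pool.Agent.R812.K5.Y
import Pool.Agent.Helper805.CHS.Drawn

/-! No planar compact set has a monotone map onto the complete graph on five vertices. -/

set_option autoImplicit false

open Set Topology Metric

namespace Pool.Agent.R812.K5

/-- Preimages of connected closed sets under closed maps with connected fibres are connected. -/
theorem mono_preimage {X Z : Type*} [TopologicalSpace X] [TopologicalSpace Z] {f : X → Z}
    (hf : Continuous f) (hcl : IsClosedMap f) (hs : Function.Surjective f)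
    (hfib : ∀ z, IsPreconnected (f ⁻¹' {z})) {C : Set Z} (hC : IsClosed C)
    (hc : IsConnected C) : IsConnected (f ⁻¹' C) := by
  refine ⟨?_, ?_⟩
  · obtain ⟨z, hz⟩ := hc.nonempty
    obtain ⟨x, rfl⟩ := hs z
    exact ⟨x, hz⟩
  · rw [isPreconnected_closed_iff]
    rintro T T' hT hT' hsub ⟨x, hxC, hxT⟩ ⟨x', hxC', hxT'⟩
    have h1 := isPreconnected_closed_iff.mp hc.isPreconnected (f '' (T ∩ f ⁻¹' C))
      (f '' (T' ∩ f ⁻¹' C)) (hcl _ (hT.inter (hC.preimage hf)))
      (hcl _ (hT'.inter (hC.preimage hf))) ?_ ⟨f x, hxC, x, ⟨hxT, hxC⟩, rfl⟩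
      ⟨f x', hxC', x', ⟨hxT', hxC'⟩, rfl⟩
    · obtain ⟨z, hz, ⟨u, ⟨hu1, hu2⟩, hu3⟩, ⟨v, ⟨hv1, hv2⟩, hv3⟩⟩ := h1
      have h2 := isPreconnected_closed_iff.mp (hfib z) T T' hT hT' ?_ ⟨u, hu3, hu1⟩ ⟨v, hv3, hv1⟩
      · obtain ⟨w, hw, hw2⟩ := h2
        refine ⟨w, ?_, hw2⟩
        have : f w = z := hw
        show f w ∈ C
        rw [this]
        exact hz
      · intro w hw
        apply hsub
        have : f w = z := hw
        show f w ∈ C
        rw [this]
        exact hz
    · intro z hz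
      obtain ⟨w, rfl⟩ := hs z
      rcases hsub (show w ∈ f ⁻¹' C from hz) with h | h
      · exact Or.inl ⟨w, ⟨h, hz⟩, rfl⟩
      · exact Or.inr ⟨w, ⟨h, hz⟩, rfl⟩

/-- Thickenings of connected sets are connected. -/
theorem thick_conn {B : Set ℂ} (hB : IsConnected B) {δ : ℝ} (hδ : 0 < δ) :
    IsConnected (thickening δ B) := by
  rw [← add_ball_zero, ← Set.add_image_prod]
  exact (hB.prod ((convex_ball 0 δ).isConnected ⟨0, mem_ball_self hδ⟩)).image _
    continuous_add.continuousOn

/-- the embedding of the plane into `ℂ` -/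
def ψ (x : EuclideanSpace ℝ (Fin 2)) : ℂ := ⟨x 0, x 1⟩

theorem ψ_cont : Continuous ψ := by
  have : ψ = fun x => (x 0 : ℂ) + (x 1 : ℂ) * Complex.I := by
    funext x
    apply Complex.ext <;> simp [ψ]
  rw [this]
  fun_prop

theorem ψ_inj : Function.Injective ψ := by
  intro x y h
  have h1 := congrArg Complex.re h
  have h2 := congrArg Complex.im h
  simp only [ψ] at h1 h2
  ext i
  fin_cases i
  · exact h1
  · exact h2

/-- the edges of the graph -/
def edge (a b : Fin 5) : Set Y := {y | y.1 ∈ segment ℝ (e a) (e b)}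

theorem edge_closed (a b : Fin 5) : IsClosed (edge a b) := by
  refine IsClosed.preimage continuous_subtype_val ?_
  rw [segment_eq_image_lineMap]
  exact (isCompact_Icc.image (by fun_prop)).isClosed

theorem edge_conn (a b : Fin 5) : IsConnected (edge a b) := by
  have h1 : Subtype.val '' (edge a b) = segment ℝ (e a) (e b) := by
    ext x
    constructor
    · rintro ⟨y, hy, rfl⟩
      exact hy
    · intro hx
      exact ⟨⟨x, a, b, hx⟩, hx, rfl⟩
  refine ⟨⟨⟨e a, e_mem a⟩, left_mem_segment _ _ _⟩, ?_⟩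
  rw [← Topology.IsInducing.subtypeVal.isPreconnected_image, h1]
  exact (convex_segment _ _).isPreconnected

/-- There is no monotone map of a planar compact set onto the complete graph on five vertices. -/
theorem no_planar (S : Set (EuclideanSpace ℝ (Fin 2))) (f : ↥S → Y) (hS : IsCompact S)
    (hf : Continuous f) (hs : Function.Surjective f)
    (hfib : ∀ y, IsPreconnected (Subtype.val '' (f ⁻¹' {y}))) : False := by
  have : CompactSpace ↥S := isCompact_iff_compactSpace.mp hS
  have hcl : IsClosedMap f := hf.isClosedMap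
  have hfib' : ∀ y, IsPreconnected (f ⁻¹' {y}) := fun y =>
    Topology.IsInducing.subtypeVal.isPreconnected_image.mp (hfib y)
  have hA : ∀ a b, IsConnected (f ⁻¹' (edge a b)) := fun a b =>
    mono_preimage hf hcl hs hfib' (edge_closed a b) (edge_conn a b)
  have hAc : ∀ a b, IsCompact (f ⁻¹' (edge a b)) := fun a b =>
    ((edge_closed a b).preimage hf).isCompact
  let g : ↥S → ℂ := fun x => ψ x.1
  have hg : Continuous g := ψ_cont.comp continuous_subtype_val
  have hgi : Function.Injective g := ψ_inj.comp Subtype.val_injective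
  let B : Fin 5 → Fin 5 → Set ℂ := fun a b => g '' (f ⁻¹' (edge a b))
  have hBc : ∀ a b, IsCompact (B a b) := fun a b => (hAc a b).image hg
  have hBconn : ∀ a b, IsConnected (B a b) := fun a b => (hA a b).image _ hg.continuousOn
  have hdis : ∀ a b c d : Fin 5, a ≠ c → a ≠ d → b ≠ c → b ≠ d → Disjoint (B a b) (B c d) := by
    intro a b c d h1 h2 h3 h4
    rw [Set.disjoint_left]
    rintro _ ⟨x, hx, rfl⟩ ⟨y, hy, hxy⟩
    have := hgi hxy
    subst this
    exact seg_disj h1 h2 h3 h4 hx hy
  choose x hx using fun i : Fin 5 => hs ⟨e i, e_mem i⟩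
  have hδ : ∃ δ : ℝ, 0 < δ ∧ ∀ a b c d : Fin 5, a ≠ c → a ≠ d → b ≠ c → b ≠ d →
      Disjoint (thickening δ (B a b)) (thickening δ (B c d)) := by
    have h1 : ∀ a b c d : Fin 5, ∀ᶠ δ : ℝ in 𝓝[>] 0, a ≠ c → a ≠ d → b ≠ c → b ≠ d →
        Disjoint (thickening δ (B a b)) (thickening δ (B c d)) := by
      intro a b c d
      by_cases h : a ≠ c ∧ a ≠ d ∧ b ≠ c ∧ b ≠ d
      · obtain ⟨δ, hδ, hd⟩ := (hdis a b c d h.1 h.2.1 h.2.2.1 h.2.2.2).exists_thickenings
          (hBc a b) (hBc c d).isClosed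
        filter_upwards [Ioo_mem_nhdsGT hδ] with ε hε _ _ _ _
        exact hd.mono (thickening_mono hε.2.le _) (thickening_mono hε.2.le _)
      · filter_upwards with ε h2 h3 h4 h5
        exact absurd ⟨h2, h3, h4, h5⟩ h
    have h2 : ∀ᶠ δ : ℝ in 𝓝[>] 0, ∀ a b c d : Fin 5, a ≠ c → a ≠ d → b ≠ c → b ≠ d →
        Disjoint (thickening δ (B a b)) (thickening δ (B c d)) := by
      simp only [Filter.eventually_all]
      intro a b c d
      simpa only [Filter.eventually_all] using h1 a b c d
    obtain ⟨δ, h3, h4⟩ := (h2.and self_mem_nhdsWithin).exists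
    exact ⟨δ, h4, h3⟩
  obtain ⟨δ, hδ, hdd⟩ := hδ
  refine Pool.Agent.Helper805.CHS.VK.k5_joined (fun i => g (x i))
    (fun a b => thickening δ (B a b)) ?_ ?_
  · intro a b _
    have hpc : IsPathConnected (thickening δ (B a b)) :=
      (isOpen_thickening.isConnected_iff_isPathConnected).mp (thick_conn (hBconn a b) hδ)
    refine hpc.joinedIn _ ?_ _ ?_
    · refine self_subset_thickening hδ _ ⟨x a, ?_, rfl⟩
      show f (x a) ∈ edge a b
      rw [hx]
      exact left_mem_segment _ _ _
    · refine self_subset_thickening hδ _ ⟨x b, ?_, rfl⟩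
      show f (x b) ∈ edge a b
      rw [hx]
      exact right_mem_segment _ _ _
  · intro a b c d _ _ h1 h2 h3 h4
    exact hdd a b c d h1 h2 h3 h4

end Pool.Agent.R812.K5
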