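import Mathlib

/-! The complete graph on five vertices as the one-skeleton of the standard simplex in `ℝ⁵`:
a locally connected continuum in which every nondegenerate subcontinuum has interior points. -/

set_option autoImplicit false

open Set Topology

namespace Pool.Agent.R812.K5

/-- the vertices -/
def e (i : Fin 5) : Fin 5 → ℝ := Pi.single i 1

/-- the underlying set -/
def YS : Set (Fin 5 → ℝ) := {x | ∃ i j, x ∈ segment ℝ (e i) (e j)}

/-- the complete graph on five vertices -/
abbrev Y : Type := ↥YS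

theorem seg_coord {i j m : Fin 5} {x : Fin 5 → ℝ} (hx : x ∈ segment ℝ (e i) (e j))
    (h1 : m ≠ i) (h2 : m ≠ j) : x m = 0 := by
  obtain ⟨a, b, ha, hb, hab, rfl⟩ := hx
  simp [e, h1, h2]

theorem seg_sum {i j : Fin 5} {x : Fin 5 → ℝ} (hx : x ∈ segment ℝ (e i) (e j)) :
    ∑ m, x m = 1 := by
  obtain ⟨a, b, ha, hb, hab, rfl⟩ := hx
  simp [e, Finset.sum_add_distrib, Pi.single_apply, hab]

theorem seg_disj {a b c d : Fin 5} (h1 : a ≠ c) (h2 : a ≠ d) (h3 : b ≠ c) (h4 : b ≠ d)
    {x : Fin 5 → ℝ} (hx : x ∈ segment ℝ (e a) (e b)) (hy : x ∈ segment ℝ (e c) (e d)) :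
    False := by
  have h0 : ∀ m, x m = 0 := by
    intro m
    by_cases hma : m = a
    · subst hma
      exact seg_coord hy h1 h2
    · by_cases hmb : m = b
      · subst hmb
        exact seg_coord hy h3 h4
      · exact seg_coord hx hma hmb
  have := seg_sum hx
  simp [h0] at this

/-- A point of `YS` with `i`-th coordinate strictly between `0` and `1`. -/
theorem point_form {x : Fin 5 → ℝ} (hx : x ∈ YS) {i : Fin 5} (h0 : 0 < x i) (h1 : x i < 1) :
    ∃ j, j ≠ i ∧ x = x i • e i + (1 - x i) • e j := by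
  obtain ⟨p, q, a, b, ha, hb, hab, rfl⟩ := hx
  by_cases hip : i = p
  · subst hip
    by_cases hiq : i = q
    · subst hiq
      simp [e, hab] at h1
    · refine ⟨q, fun h => hiq h.symm, ?_⟩
      have : (a • e i + b • e q) i = a := by simp [e, hiq]
      rw [this, show 1 - a = b by linarith]
  · by_cases hiq : i = q
    · subst hiq
      refine ⟨p, fun h => hip h.symm, ?_⟩
      have : (a • e p + b • e i) i = b := by simp [e, hip]
      rw [this, show 1 - b = a by linarith, add_comm]
    · exfalso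
      simp [e, hip, hiq] at h0

theorem isCompact_YS : IsCompact YS := by
  have : YS = ⋃ p : Fin 5 × Fin 5, segment ℝ (e p.1) (e p.2) := by
    ext x
    simp [YS]
  rw [this]
  refine isCompact_iUnion fun p => ?_
  rw [segment_eq_image_lineMap]
  exact isCompact_Icc.image (by fun_prop)

instance : CompactSpace Y := isCompact_iff_compactSpace.mp isCompact_YS

theorem e_mem (i : Fin 5) : e i ∈ YS := ⟨i, i, left_mem_segment _ _ _⟩

theorem isConnected_YS : IsConnected YS := by
  refine ⟨⟨e 0, e_mem 0⟩, isPreconnected_of_forall (e 0) ?_⟩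
  rintro x ⟨i, j, hx⟩
  refine ⟨segment ℝ (e 0) (e i) ∪ segment ℝ (e i) (e j), ?_, Or.inl (left_mem_segment _ _ _),
    Or.inr hx, ?_⟩
  · rintro y (hy | hy)
    · exact ⟨_, _, hy⟩
    · exact ⟨_, _, hy⟩
  · exact IsPreconnected.union (e i) (right_mem_segment _ _ _) (left_mem_segment _ _ _)
      (convex_segment _ _).isPreconnected (convex_segment _ _).isPreconnected

instance : ConnectedSpace Y := isConnected_iff_connectedSpace.mp isConnected_YS

instance : Nontrivial Y := by
  refine ⟨⟨⟨e 0, e_mem 0⟩, ⟨e 1, e_mem 1⟩, ?_⟩⟩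
  intro h
  have := congrFun (congrArg Subtype.val h) 0
  simp [e] at this

/-- the parametrisation of the graph -/
def par (z : (_ : Fin 5 × Fin 5) × ↥(Set.Icc (0 : ℝ) 1)) : Y :=
  ⟨(1 - (z.2 : ℝ)) • e z.1.1 + (z.2 : ℝ) • e z.1.2, z.1.1, z.1.2, 1 - (z.2 : ℝ), (z.2 : ℝ),
    by linarith [z.2.2.2], z.2.2.1, by ring, rfl⟩

theorem par_cont : Continuous par := by
  refine Continuous.subtype_mk ?_ _
  rw [continuous_sigma_iff]
  intro p
  fun_prop

theorem par_surj : Function.Surjective par := by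
  rintro ⟨x, i, j, a, b, ha, hb, hab, rfl⟩
  refine ⟨⟨(i, j), ⟨b, hb, by linarith⟩⟩, Subtype.ext ?_⟩
  simp only [par]
  rw [show 1 - b = a by linarith]

instance : LocallyConnectedSpace Y := by
  have : LocallyPathConnectedSpace ↥(Set.Icc (0 : ℝ) 1) :=
    (convex_Icc 0 1).locallyPathConnectedSpace
  have hq : IsQuotientMap par :=
    (par_cont.isClosedMap).isQuotientMap par_cont par_surj
  have := hq.locallyPathConnectedSpace
  infer_instance

/-- Every nondegenerate subcontinuum of the graph has interior points. -/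
theorem interior_nonempty (L : Set Y) (hL : IsClosed L) (hc : IsPreconnected L)
    (hn : L.Nontrivial) : ∃ U : Set Y, IsOpen U ∧ U.Nonempty ∧ U ⊆ L := by
  obtain ⟨i, x, hx, y, hy, hxy⟩ : ∃ i, ∃ x ∈ L, ∃ y ∈ L, x.1 i < y.1 i := by
    obtain ⟨x, hx, y, hy, hne⟩ := hn
    have : ∃ i, x.1 i ≠ y.1 i := by
      by_contra hcon
      push Not at hcon
      exact hne (Subtype.ext (funext hcon))
    obtain ⟨i, hi⟩ := this
    rcases lt_or_gt_of_ne hi with h | h
    · exact ⟨i, x, hx, y, hy, h⟩
    · exact ⟨i, y, hy, x, hx, h⟩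
  have h01 : ∀ z : Y, 0 ≤ z.1 i ∧ z.1 i ≤ 1 := by
    rintro ⟨z, p, q, a, b, ha, hb, hab, rfl⟩
    simp only [e, Pi.add_apply, Pi.smul_apply, Pi.single_apply, smul_eq_mul, mul_ite, mul_one,
      mul_zero]
    split_ifs <;> constructor <;> linarith
  have hLc : IsCompact (Subtype.val '' L) := hL.isCompact.image continuous_subtype_val
  have hpi : Continuous (fun z : Y => z.1 i) := (continuous_apply i).comp continuous_subtype_val
  have hcov : ∀ c, c ∈ Set.Ioo (x.1 i) (y.1 i) → ∃ j, j ≠ i ∧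
      c • e i + (1 - c) • e j ∈ Subtype.val '' L := by
    intro c hc'
    have himg : IsPreconnected ((fun z : Y => z.1 i) '' L) := hc.image _ hpi.continuousOn
    have hmem : c ∈ (fun z : Y => z.1 i) '' L :=
      himg.Icc_subset ⟨x, hx, rfl⟩ ⟨y, hy, rfl⟩ ⟨hc'.1.le, hc'.2.le⟩
    obtain ⟨z, hz, hzc⟩ := hmem
    simp only at hzc
    obtain ⟨j, hj, hj2⟩ := point_form z.2 (i := i) (by rw [hzc]; linarith [(h01 x).1, hc'.1])
      (by rw [hzc]; linarith [(h01 y).2, hc'.2])
    refine ⟨j, hj, z, hz, ?_⟩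
    rw [hj2, hzc]
  let F : Option (Option (Fin 5)) → Set ℝ := fun s =>
    match s with
    | none => Set.Iic (x.1 i)
    | some none => Set.Ici (y.1 i)
    | some (some j) => {c : ℝ | j ≠ i} ∩ (fun c : ℝ => c • e i + (1 - c) • e j) ⁻¹' (Subtype.val '' L)
  have hF : ∀ s, IsClosed (F s) := by
    rintro (_ | (_ | j))
    · exact isClosed_Iic
    · exact isClosed_Ici
    · exact isClosed_const.inter (hLc.isClosed.preimage (by fun_prop))
  have hU : ⋃ s, F s = Set.univ := by
    rw [Set.eq_univ_iff_forall]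
    intro c
    rw [Set.mem_iUnion]
    by_cases h1 : c ≤ x.1 i
    · exact ⟨none, h1⟩
    · by_cases h2 : y.1 i ≤ c
      · exact ⟨some none, h2⟩
      · obtain ⟨j, hj1, hj2⟩ := hcov c ⟨not_le.mp h1, not_le.mp h2⟩
        exact ⟨some (some j), hj1, hj2⟩
  have hdense := dense_iUnion_interior_of_closed hF hU
  obtain ⟨c, hc1, hc2⟩ := hdense.inter_open_nonempty (Set.Ioo (x.1 i) (y.1 i)) isOpen_Ioo
    (Set.nonempty_Ioo.mpr hxy)
  rw [Set.mem_iUnion] at hc2
  obtain ⟨s, hs⟩ := hc2
  match s, hs with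
  | none, hs =>
    exfalso
    have h5 : c ∈ F none := interior_subset hs
    have h6 : c ≤ x.1 i := h5
    exact absurd hc1.1 (not_lt.mpr h6)
  | some none, hs =>
    exfalso
    have h5 : c ∈ F (some none) := interior_subset hs
    have h6 : y.1 i ≤ c := h5
    exact absurd hc1.2 (not_lt.mpr h6)
  | some (some j), hs =>
    have hji : j ≠ i := (interior_subset hs : c ∈ F (some (some j))).1
    have hc01 : 0 < c ∧ c < 1 := ⟨by linarith [(h01 x).1, hc1.1], by linarith [(h01 y).2, hc1.2]⟩
    refine ⟨{z : Y | z.1 i ∈ interior (F (some (some j))) ∩ Set.Ioo 0 1 ∧ 0 < z.1 j}, ?_, ?_, ?_⟩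
    · refine IsOpen.inter ?_ ?_
      · exact (isOpen_interior.inter isOpen_Ioo).preimage hpi
      · exact isOpen_Ioi.preimage ((continuous_apply j).comp continuous_subtype_val)
    · refine ⟨⟨c • e i + (1 - c) • e j, i, j, c, 1 - c, hc01.1.le, by linarith, by ring, rfl⟩, ?_, ?_⟩
      · have : (c • e i + (1 - c) • e j) i = c := by simp [e, Ne.symm hji]
        simp only [this]
        exact ⟨hs, hc01⟩
      · have : (c • e i + (1 - c) • e j) j = 1 - c := by simp [e, hji]
        simp only [this]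
        linarith
    · rintro z ⟨⟨hz1, hz2⟩, hz3⟩
      obtain ⟨k, hk, hk2⟩ := point_form z.2 (i := i) hz2.1 hz2.2
      have hkj : k = j := by
        by_contra hne
        rw [hk2] at hz3
        simp [e, hji, Ne.symm hne] at hz3
      subst hkj
      have h3 : (z.1 i) • e i + (1 - z.1 i) • e k ∈ Subtype.val '' L :=
        (interior_subset hz1 : z.1 i ∈ F (some (some k))).2
      rw [← hk2] at h3
      obtain ⟨w, hw, hwz⟩ := h3
      rwa [Subtype.ext hwz] at hw

end Pool.Agent.R812.K5
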